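import Pool.Agent.H86R3.KH12

set_option autoImplicit false

open Filter Topology Set
open scoped ENNReal NNReal
open Pool.Agent.H86R3.Wnc Pool.Agent.H86R3.KH

namespace Pool.Agent.Results.MP_af3abc_an.SeparabilityDichotomy

universe u

/-- The space of compact operators on `H`: Mathlib's closed subspace `compactOperator` of the bounded
operators, with the operator norm. -/
abbrev CompactOps (H : Type u) [NormedAddCommGroup H] [InnerProductSpace ℂ H] : Type u :=
  ↥(compactOperator (RingHom.id ℂ) H H)

/-- On the space of compact operators of a complex Hilbert space `H` the three measures of weak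
non-compactness coincide on bounded sets when `H` is separable, and for nonseparable `H` no multiple
of `wk` or `wck` dominates the De Blasi measure; so the De Blasi measure is equivalent to `wk`, and
to `wck`, exactly when `H` is separable. -/
theorem result (H : Type u) [NormedAddCommGroup H] [InnerProductSpace ℂ H] [CompleteSpace H] :
    (TopologicalSpace.SeparableSpace H → ∀ A : Set (CompactOps H), Bornology.IsBounded A →
      deBlasi A = wk A ∧ wk A = wck A) ∧
    (¬ TopologicalSpace.SeparableSpace H → ∀ C : ℝ≥0, ∃ A : Set (CompactOps H), A.Nonempty ∧
      Bornology.IsBounded A ∧ (C : ℝ≥0∞) * wk A < deBlasi A ∧ (C : ℝ≥0∞) * wck A < deBlasi A) ∧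
    (Equivalent (X := CompactOps H) wk deBlasi ↔ TopologicalSpace.SeparableSpace H) ∧
    (Equivalent (X := CompactOps H) wck deBlasi ↔ TopologicalSpace.SeparableSpace H) :=
  dichotomy H

end Pool.Agent.Results.MP_af3abc_an.SeparabilityDichotomy
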